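import Pool.Agent.KBD.Bf

/-!
# An improvement of the Brauer-Feit bound for all blocks

Let `B` be a `p`-block of defect `d` of a finite group `G`, `d ≥ 3`. Brauer and Feit proved
`k(B) ≤ p^(2d-2)`. We prove for all primes `p` and all blocks of all finite groups

* `k(B) ≤ (8/5) p^(2d-3)`,
* `k(B) ≤ (32/25) 2^(2d-3) = (16/25) 2^(2d-2)` if `p = 2`.

For `d = 3` the exponent `2d - 3 = 3` is the conjectured one, and the constant is `1` in that case
(all blocks of defect at most `3` satisfy Brauer's inequality, `Pool.Agent.KBD.Def3_main`).

Blocks are classes of irreducible complex characters whose central characters are congruent modulo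
a maximal ideal of the ring of algebraic integers over `p`; the defect `d` is the least number such
that the `p`-part of `|G|` divides `p^d χ(1)` for all characters of the block.

Idea of the proof. For a major subsection `(z, b)` of `B` with `z` of order `p` the matrix of the
contributions, multiplied by `p^d`, is a Galois stable matrix over `ℤ[ζ_p]` with `M² = p^d M` and
trace `p^d l(b)`, whose entries at pairs of characters of height zero are units modulo the prime
over `p`. Adding over the Galois group and counting congruence classes modulo `p` gives an
inequality which is better than the one obtained from the arithmetic-geometric mean by a factor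
`p - 1` when `l(b)` is large. The block `b` dominates a block of defect at most `d - 1` with the
same number of Brauer characters, and the bound follows by induction on `d`; the induction starts
with the theorem that `k(B) ≤ p^3` for all blocks of defect `3`. For `p = 2` the diagonal of `M`
and the orthogonality of the contributions of `(z, b)` and `(1, B)` are taken into account, and the
induction is carried out for `k(B)` and `l(B)` together.
-/

set_option autoImplicit false

namespace Pool.Agent.Results.MP_a15589_al.BrauerFeit

open Pool.Agent.KB

/-- The main result: `B = block 𝔪 χ` is the block of the irreducible character `χ`. -/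
theorem result (G : Type) [Group G] [Finite G] (p : ℕ) (hp : p.Prime) (𝔪 : Ideal AInt)
    (h𝔪 : 𝔪.IsMaximal) (hp𝔪 : (p : AInt) ∈ 𝔪) (χ : G → ℂ) (hχ : χ ∈ Irr G) (d : ℕ)
    (hd : d = defect p (block 𝔪 χ)) (hd3 : 3 ≤ d) :
    (block 𝔪 χ).Finite ∧
    5 * (block 𝔪 χ).ncard ≤ 8 * p ^ (2 * d - 3) ∧
    (p = 2 → 25 * (block 𝔪 χ).ncard ≤ 32 * 2 ^ (2 * d - 3)) := by
  have : Fintype G := Fintype.ofFinite G
  subst hd
  exact ⟨(Pool.Agent.KBL.Fin_main p hp 𝔪 h𝔪 hp𝔪 χ hχ).1,
    Pool.Agent.KBD.Bf_main p hp 𝔪 h𝔪 hp𝔪 χ hχ hd3⟩

end Pool.Agent.Results.MP_a15589_al.BrauerFeit
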