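import Pool.Agent.KBD.Cls

/-!
# Brauer's inequality `k(B) ≤ p^d`: all blocks of defect at most three, and all blocks whose defect
# group has a central cyclic subgroup with an abelian quotient of rank at most two

Let `B` be a `p`-block of a finite group with defect group `D`, `p` any prime. If `D` has defect at
most three, or more generally if `D` has a central cyclic subgroup `⟨u⟩` such that `D / ⟨u⟩` is
abelian of rank at most two (that is, `D = ⟨u, a, b⟩` with `[u, a] = [u, b] = 1` and `[a, b] ∈ ⟨u⟩`),
then `k(B) ≤ |D|` (below this is the case `N = G`). These `D` are: the abelian `p`-groups of rank at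
most three; all `p`-groups of order at most `p ^ 3`; the minimal nonabelian `p`-groups; the central
products of a nonabelian group of order `p ^ 3` with a cyclic group; and many other `p`-groups of
class two. We prove more generally: if `N` is a normal subgroup of `G`, `b` is a block of `N` of this
kind, and `G / N` is `p`-solvable with `p`-factors of rank at most three (or of any rank `s`, if
`p ≥ 12 * 25 ^ (s ^ 2)`), then `k(B) ≤ p ^ d` for all blocks `B` of `G` over `b`, `d` the defect of
`B`.

The proof for `N = G`.

* (folders `KBD`, `BlkS`, `Frb`) Let `u ≠ 1` be in `Z(D)`, `D / ⟨u⟩` abelian, and let the elements of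
  order prime to `p` of the inertial group of the block of `C_G(u) / ⟨u⟩` which is dominated by
  `b_u` act freely on `D / ⟨u⟩`. The vectors of the generalized decomposition numbers of that block
  at the elements `≠ 1` span a lattice with the Gram matrix `δ + e`; a chain of orthogonal vectors
  gives projective characters `Φ_i` with total norm at most `2 |D : ⟨u⟩|` such that for every
  character of `B` at least two of the inner products of the column of `u` with the `Φ_i` are not
  zero, and Bessel's inequality and the arithmetic-geometric mean inequality for the conjugates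
  give `k(B) ≤ |D|` (`Fin_core`).
* If `D` is not abelian, `D = ⟨u, a, b⟩` as above, then the action is free, because the commutator
  pairing of `D / ⟨u⟩` with values in `⟨u⟩` is invariant and not zero (`Fin_two`, `Frg_main`).
* If `D` is abelian of rank at most three and `p` is odd: `Pool.Agent.KBR.Fin3_main`. For `p = 2`
  take `u` of maximal order in `D`: the action is free (`Two_main`).

The passage from `N` to `G` is the closure theorem of the folder `Pool/Agent/KBY` (Fong-Reynolds,
Clifford theory, coprime action). The classification of the finite simple groups and the `k(GV)`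
theorem are not used.

Blocks are classes of irreducible complex characters whose central characters are congruent modulo
a maximal ideal of the ring of algebraic integers over `p`; the defect `d` is the least number such
that the `p`-part of `|G|` divides `p^d χ(1)` for all characters of the block. Every subgroup `D` of
order `p ^ d` with a block `b` of `C_G(D)` such that `b^G = B` is a defect group of `B`, and every
defect group has these properties.
-/

set_option autoImplicit false

namespace Pool.Agent.Results.MP_a15589_al.CentralByRankTwo

open Pool.Agent.KB Pool.Agent.KBZ Pool.Agent.KBQ Pool.Agent.KBY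

/-- The main result: `b = block 𝔪 θ` is a block of the normal subgroup `N` of `G`, `B = block 𝔪 χ` is a
block of `G` over `b`, of defect `d = defect p (block 𝔪 χ)`. -/
theorem result (N G : Type) [Group N] [Fintype N] [Group G] [Fintype G] (p : ℕ) (hp : p.Prime)
    (𝔪 : Ideal AInt) (h𝔪 : 𝔪.IsMaximal) (hp𝔪 : (p : AInt) ∈ 𝔪)
    -- `N` is a normal subgroup of `G`
    (ι : N →* G) (hι : Function.Injective ι) (hN : ι.range.Normal)
    -- there is a series from `N` to `G` with factors of order prime to `p` or elementary abelian
    -- of order at most `p ^ s`, at most `n` of the second kind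
    (s n : ℕ) (hs : s ≤ 3 ∨ 12 * 25 ^ (s ^ 2) ≤ p) (hser : Ser p s n ι.range)
    (θ : N → ℂ) (hθ : θ ∈ Irr N)
    -- `b` has defect at most three, or a defect group `D = ⟨u, a, b⟩` with `u` central in `D` and
    -- `[a, b]` in `⟨u⟩`; `ζ` is in a block of the centralizer of `D` which induces `b`
    (hb : defect p (block 𝔪 θ) ≤ 3 ∨
      ∃ (D : Subgroup N) (u a b : N) (ζ : Subgroup.centralizer (D : Set N) → ℂ),
        D = Subgroup.closure {u, a, b} ∧ a * u = u * a ∧ b * u = u * b ∧
        a * b * a⁻¹ * b⁻¹ ∈ Subgroup.zpowers u ∧
        Nat.card D = p ^ defect p (block 𝔪 θ) ∧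
        ζ ∈ Irr (Subgroup.centralizer (D : Set N)) ∧
        Induces 𝔪 (Subgroup.centralizer (D : Set N)) ζ θ)
    -- `χ` lies over `θ`
    (χ : G → ℂ) (hχ : χ ∈ Irr G) (hχθ : Over ι χ θ) :
    (block 𝔪 χ).Finite ∧ (block 𝔪 χ).ncard ≤ p ^ defect p (block 𝔪 χ) := by
  classical
  have h : Nrm ι := Nrm.of_range hι hN
  have hs' : s ≤ 3 ∨ 12 * 25 ^ (s ^ 2) ≤ p + 1 := hs.imp id fun h1 => by omega
  refine ⟨Pool.Agent.KBU.Gam_fin 𝔪 χ, ?_⟩
  rcases hb with hb | ⟨D, u, a, b, ζ, hgen, hau, hbu, hab, hD, hζ, hind⟩
  · exact Pool.Agent.KBD.Cls_three p hp 𝔪 h𝔪 hp𝔪 θ hθ hb s n hs' h hser χ hχ hχθ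
  · have : Fintype (Subgroup.centralizer (D : Set N)) := Fintype.ofFinite _
    have : Fact p.Prime := ⟨hp⟩
    exact Pool.Agent.KBD.Cls_fin p hp 𝔪 h𝔪 hp𝔪 θ hθ D
      (Subgroup.centralizer (D : Set N)).subtype ζ
      ⟨IsPGroup.of_card hD, hD, Sub_cen D, hζ, (IndA_sub 𝔪 _ ζ hζ θ hθ).1 hind⟩
      ⟨u, a, b, hgen, hau, hbu, hab⟩ s n hs' h hser χ hχ hχθ

end Pool.Agent.Results.MP_a15589_al.CentralByRankTwo
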