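import Pool.Agent.KCK.Clo
import Pool.Agent.KBY.Iner
import Pool.Agent.MSf.ThK

/-!
# Brauer's inequality `k(B) ≤ p^d`: cyclic, free and abelian-by-cyclic groups of automorphisms

Let `B` be a `p`-block of a finite group `G`, `p` any prime, with defect group `D`; let `b_D` be a block
of `C_G(D)` which induces `B` and `T` its stabilizer in `N_G(D)`. We prove `k(B) ≤ |D|` if

* `D` has a central element `u ≠ 1` such that `D / ⟨u⟩` is abelian and the group of automorphisms of
  `D / ⟨u⟩` which is induced by `C_T(u)` is cyclic of prime power order (in any action), or acts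
  freely (its elements `≠ 1` have no fixed point `≠ 1`); or if
* `D` is abelian and the inertial quotient `E = T / C_G(D)` has an abelian normal subgroup with a cyclic
  factor group of prime power order.

More generally let `N` be a normal subgroup of `G` such that `G / N` is `p`-solvable with `p`-factors of
rank at most three (or of rank at most `s`, `p ≥ 12 * 25 ^ (s ^ 2)`), `b` a block of `N` with defect
group `D` and `B` a block of `G` over `b`, of defect `d`; `T` is now the stabilizer in `G` of `D` and of a
block of `C_N(D)` which induces `b`. Then `k(B) ≤ p ^ d` under the same hypotheses. The case `N = G` is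
the statement above.

The second statement follows from the first one: an abelian `p'`-group which acts faithfully on an
abelian `p`-group `D` has a regular orbit on `D`, so there is an element `u ≠ 1` of `D` such that
`C_E(u)` is isomorphic to a subgroup of the cyclic factor group of `E`.

The proof for `N = G`.

* (`Pool/Agent/Isk`, `MSf`) A block with an abelian defect group and an inertial quotient which is
  cyclic of prime power order is perfectly isometric to the semidirect product of the two groups (in
  the form of an isometry of systems of generalized characters with all local compatibilities).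
* (`Pool/Agent/KCK/Pw` - `Fpc`) So the projective generalized characters of the block with the defect
  group `P` contain a family `Φ_i` with total norm at most `2 |P|` such that every column which is
  orthogonal to all but one of them is orthogonal to all projective characters; the family is a path
  of differences of the projective indecomposable characters of the semidirect product, in an order
  given by a faithful linear character of the inertial quotient.
* (`Pool/Agent/KCK/Dbl`) Let `b_u` be the block of `C_G(u)` which is induced by `b_D` and `b̄_u` the block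
  of `C_G(u) / ⟨u⟩` dominated by `b_u`. The inertial quotient of `b̄_u` is induced by elements of
  `C_T(u)`.
* (`Pool/Agent/KBD`, `KCK/Core`) Bessel's inequality for the columns of generalized decomposition
  numbers of `u` and the family `Φ_i` for `b̄_u`, together with the inequality between the
  arithmetic and the geometric mean for the Galois conjugates, gives `k(B) ≤ |D|`.

The passage from `N` to `G` is the closure theorem of the folder `Pool/Agent/KBY` (Fong-Reynolds,
Clifford theory, coprime action). The classification of the finite simple groups and the `k(GV)`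
theorem are not used.

Blocks are classes of irreducible complex characters whose central characters are congruent modulo
a maximal ideal of the ring of algebraic integers over `p`; the defect `d` is the least number such
that the `p`-part of `|G|` divides `p^d χ(1)` for all characters of the block. Every subgroup `D` of
order `p ^ d` with a block `b` of `C_G(D)` such that `b^G = B` is a defect group of `B`, and every
defect group has these properties.
-/

set_option autoImplicit false

namespace Pool.Agent.Results.MP_a15589_al.CyclicAutomizer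

open Pool.Agent.KB Pool.Agent.KBZ Pool.Agent.KBQ Pool.Agent.KBY

/-- `T` is a set of elements of `G` which act on `D` by conjugation (`D` is a subgroup of `N`, and `N` is
a subgroup of `G` by the injective homomorphism `ι`). The elements of `T` which commute with `u`
induce on `D / ⟨u⟩` a cyclic group of automorphisms, generated by the automorphism induced by
`τ`, of prime power order. -/
def CyclicAction {N G : Type} [Group N] [Group G] (ι : N →* G) (T : Set G) (D : Subgroup N)
    (u : N) : Prop :=
  ∃ (r c : ℕ) (τ : G), r.Prime ∧ τ ∈ T ∧ τ * ι u = ι u * τ ∧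
    (∀ x ∈ D, τ ^ (r ^ c) * ι x * (τ ^ (r ^ c))⁻¹ * (ι x)⁻¹ ∈ Subgroup.zpowers (ι u)) ∧
    ∀ g ∈ T, g * ι u = ι u * g → ∃ k : ℤ, ∀ x ∈ D,
      g * ι x * g⁻¹ * (τ ^ k * ι x * (τ ^ k)⁻¹)⁻¹ ∈ Subgroup.zpowers (ι u)

/-- The elements of `T` which commute with `u` induce on `D / ⟨u⟩` a group of automorphisms which acts
freely: if one of these elements fixes an element `≠ 1` of `D / ⟨u⟩`, it fixes all elements. -/
def FreeAction {N G : Type} [Group N] [Group G] (ι : N →* G) (T : Set G) (D : Subgroup N)
    (u : N) : Prop :=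
  ∀ g ∈ T, g * ι u = ι u * g → ∀ v ∈ D, v ∉ Subgroup.zpowers u →
    g * ι v * g⁻¹ * (ι v)⁻¹ ∈ Subgroup.zpowers (ι u) →
    ∀ x ∈ D, g * ι x * g⁻¹ * (ι x)⁻¹ ∈ Subgroup.zpowers (ι u)

/-- `T` has a normal subgroup `S` which induces on `D` an abelian group of automorphisms, and `T / S` is
cyclic, generated by the class of `τ`, of prime power order. -/
def AbelianByCyclicAction {N G : Type} [Group N] [Group G] (ι : N →* G) (T : Set G)
    (D : Subgroup N) : Prop :=
  ∃ (S : Subgroup G) (r c : ℕ) (τ : G), (∀ a ∈ S, a ∈ T) ∧ (∀ t ∈ T, ∀ a ∈ S, t * a * t⁻¹ ∈ S) ∧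
    (∀ a ∈ S, ∀ b ∈ S, ∀ x ∈ D, a * b * a⁻¹ * b⁻¹ * ι x = ι x * (a * b * a⁻¹ * b⁻¹)) ∧
    r.Prime ∧ τ ∈ T ∧ τ ^ (r ^ c) ∈ S ∧ ∀ t ∈ T, ∃ k : ℤ, t * τ ^ k ∈ S

/-- The main result: `b = block 𝔪 θ` is a block of the normal subgroup `N` of `G`, `B = block 𝔪 χ` is a
block of `G` over `b`, of defect `d = defect p (block 𝔪 χ)`. -/
theorem result (N G : Type) [Group N] [Fintype N] [Group G] [Fintype G] (p : ℕ) (hp : p.Prime)
    (𝔪 : Ideal AInt) (h𝔪 : 𝔪.IsMaximal) (hp𝔪 : (p : AInt) ∈ 𝔪)
    -- `N` is a normal subgroup of `G`
    (ι : N →* G) (hι : Function.Injective ι) (hN : ι.range.Normal)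
    -- there is a series from `N` to `G` with factors of order prime to `p` or elementary abelian
    -- of order at most `p ^ s`, at most `n` of the second kind
    (s n : ℕ) (hs : s ≤ 3 ∨ 12 * 25 ^ (s ^ 2) ≤ p) (hser : Ser p s n ι.range)
    -- `D` is a defect group of `b`, `ζ` is in a block of its centralizer which induces `b`
    (θ : N → ℂ) (hθ : θ ∈ Irr N) (D : Subgroup N)
    (hD : Nat.card D = p ^ defect p (block 𝔪 θ))
    (ζ : Subgroup.centralizer (D : Set N) → ℂ) (hζ : ζ ∈ Irr (Subgroup.centralizer (D : Set N)))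
    (hind : Induces 𝔪 (Subgroup.centralizer (D : Set N)) ζ θ)
    -- (1) `u ≠ 1` is in the centre of `D`, `D / ⟨u⟩` is abelian, and the elements which commute
    -- with `u` of the stabilizer of `(D, block of ζ)` in `G` induce on `D / ⟨u⟩` a cyclic group of
    -- prime power order or a group which acts freely; or (2) `D` is abelian, and the stabilizer
    -- induces on `D` a group with an abelian normal subgroup with cyclic factor group of prime
    -- power order
    (hact : (∃ u ∈ D, u ≠ 1 ∧ (∀ a ∈ D, a * u = u * a) ∧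
        (∀ a ∈ D, ∀ b ∈ D, a * b * a⁻¹ * b⁻¹ ∈ Subgroup.zpowers u) ∧
        (CyclicAction ι (inertiaIn 𝔪 ι D ζ) D u ∨ FreeAction ι (inertiaIn 𝔪 ι D ζ) D u)) ∨
      (∀ a ∈ D, ∀ b ∈ D, a * b = b * a) ∧ AbelianByCyclicAction ι (inertiaIn 𝔪 ι D ζ) D)
    -- `χ` lies over `θ`
    (χ : G → ℂ) (hχ : χ ∈ Irr G) (hχθ : Over ι χ θ) :
    (block 𝔪 χ).Finite ∧ (block 𝔪 χ).ncard ≤ p ^ defect p (block 𝔪 χ) := by
  classical
  have : Fintype (Subgroup.centralizer (D : Set N)) := Fintype.ofFinite _
  have h : Nrm ι := Nrm.of_range hι hN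
  have hs' : s ≤ 3 ∨ 12 * 25 ^ (s ^ 2) ≤ p + 1 := hs.imp id fun h1 => by omega
  have : Fact p.Prime := ⟨hp⟩
  have hA : Pool.Agent.KBD.DefP p 𝔪 θ D (Subgroup.centralizer (D : Set N)).subtype ζ :=
    ⟨IsPGroup.of_card hD, hD, Sub_cen D, hζ, (IndA_sub 𝔪 _ ζ hζ θ hθ).1 hind⟩
  have hT : ∀ g, g ∈ inertiaIn 𝔪 ι D ζ ↔
      g ∈ ExS 𝔪 ι D (Subgroup.centralizer (D : Set N)).subtype ζ := Iner_eq 𝔪 h D ζ
  refine ⟨Pool.Agent.KBU.Gam_fin 𝔪 χ, ?_⟩
  rcases hact with ⟨u, hu, hu1, hcu, hcom, hcyc | hfree⟩ | ⟨hab, S, r, c, τ, hS, hSn, hSc, hr, hτ,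
    hτr, hgen⟩
  · obtain ⟨r, c, τ, hr, hτ, -, h1, h2⟩ := hcyc
    exact Pool.Agent.KCK.Clo_pp Pool.Agent.MSf.thmK p hp 𝔪 h𝔪 hp𝔪 θ hθ D _ ζ hA s n hs' h hser u hu
      hu1 hcu hcom r c hr τ ((hT τ).1 hτ).1 h1 (fun g hg => h2 g ((hT g).2 hg)) χ hχ hχθ
  · exact Pool.Agent.KCK.Clo_fr p hp 𝔪 h𝔪 hp𝔪 θ hθ D _ ζ hA s n hs' h hser u hu hu1 hcu hcom
      (fun g hg => hfree g ((hT g).2 hg)) χ hχ hχθ
  · exact Pool.Agent.KCK.Clo_ab Pool.Agent.MSf.thmK p hp 𝔪 h𝔪 hp𝔪 θ hθ D _ ζ hA s n hs' h hser hab
      S (fun t ht => (hT t).1 (hS t ht)) (fun t ht => hSn t ((hT t).2 ht)) hSc r c hr τ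
      ((hT τ).1 hτ) hτr (fun t ht => hgen t ((hT t).2 ht)) χ hχ hχθ

end Pool.Agent.Results.MP_a15589_al.CyclicAutomizer
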