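import Pool.Agent.KBD.Cls
import Pool.Agent.KBY.Tra
import Pool.Agent.KBY.Iner

/-!
# Brauer's inequality `k(B) ≤ p^d` for blocks over blocks with abelian defect groups, when the
# quotient is `p`-solvable

Let `N` be a normal subgroup of the finite group `G` and let `b` be a `p`-block of `N` with an abelian
defect group `D`. Let `G / N` be `p`-solvable; more precisely let there be a series of normal
subgroups of `G` from `N` to `G` whose factors have order prime to `p` or are elementary abelian
`p`-groups of order at most `p ^ r`, with at most `n` factors of the second kind (`Ser p r n`; the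
factors of order prime to `p` are arbitrary). Let `B` be a block of `G` over `b`, of defect `d`. Its
defect groups are in general not abelian, and `d` can be much larger than the defect of `b`.

We prove that the inequality `k(B) ≤ p ^ d` (and every inequality `k ≤ C p ^ d`) is inherited:

* if `k(B') ≤ C |D'|` for all `p`-blocks `B'` of finite groups with abelian defect groups `D'` of
  rank at most `r`, and `D` has rank at most `r`, then `k(B) ≤ C ^ (n + 1) * p ^ d`; for `C = 1`:
  Brauer's conjecture for abelian defect groups of rank at most `r` implies it for `B`;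
* so, if `D` has rank at most `r`, `k(B) ≤ p ^ d` for all primes `p ≥ c = 12 * 25 ^ (r ^ 2)`, and
  `k(B) ≤ (c ^ (r ^ 2)) ^ (n + 1) * p ^ d` for all primes `p`;
* for large `p` (or `r ≤ 3`, for example if `G / N` is a `p`-group, or `n = 0`) it suffices that some
  element `u` of `D` is fixed by at most `(p + 1) / 12` elements of the group of automorphisms of `D`
  which is induced by the stabilizer in `G` of `D` and of a block of `C_N(D)` which induces `b`.

For `N = G`, `n = 0`, this is the result on blocks with abelian defect groups: `k(B) ≤ |D|` if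
`12 |C_E(u)| ≤ p + 1` for some `u` in `D`, `E` the inertial quotient; hence `k(B) ≤ |D|` for
`p ≥ 12 * 25 ^ (r ^ 2)`, and `k(B) ≤ c(r) |D|` for all `p`.

The proof (folder `Pool/Agent/KBY`, over `Pool/Agent/KBQ`): let `L / L₁` be the last factor which is
a `p`-group, `C₂ = C_G(L / L₁)`, `C₁ / L₁` the subgroup of the elements of order prime to `p` of
`C₂ / L₁`; `G / C₂` acts faithfully on `C₂ / C₁ = L / L₁`, and `p` does not divide `|G : C₂|`. Let `b₁` be
a block of `C₁` under `B` and over `b`. If `b₁` is not `G`-stable we pass to its stabilizer (Fong and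
Reynolds). If it is, all characters of `B` lie over `Irr(b₁)`, and Clifford theory together with the
coprime action of `G / C₂` on the characters of `C₂` over `b₁` gives `k(B) ≤ C |C₂ : C₁| k(b₁)`,
where `C` is the constant in `k(V ⋊ S) ≤ C |V|` for `V = L / L₁`; this follows from the hypothesis
since `V ⋊ S` has only one block. The defects satisfy `d(b₁) + v(|C₂ : C₁|) ≤ d(B)`. No result which
depends on the classification of the finite simple groups is used, neither the `k(GV)` theorem.

Blocks are classes of irreducible complex characters whose central characters are congruent modulo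
a maximal ideal of the ring of algebraic integers over `p`; the defect `d` is the least number such
that the `p`-part of `|G|` divides `p^d χ(1)` for all characters of the block.
-/

set_option autoImplicit false

namespace Pool.Agent.Results.MP_a15589_al.SolvableQuotients

open Pool.Agent.KB Pool.Agent.KBZ Pool.Agent.KBQ Pool.Agent.KBY

/-- The main result. `b = block 𝔪 θ` is a block of the normal subgroup `N` of `G`, `B = block 𝔪 χ` is a
block of `G` over `b`, of defect `d = defect p (block 𝔪 χ)`. -/
theorem result (N G : Type) [Group N] [Fintype N] [Group G] [Fintype G] (p : ℕ) (hp : p.Prime)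
    (𝔪 : Ideal AInt) (h𝔪 : 𝔪.IsMaximal) (hp𝔪 : (p : AInt) ∈ 𝔪)
    -- `N` is a normal subgroup of `G`
    (ι : N →* G) (hι : Function.Injective ι) (hN : ι.range.Normal)
    -- there is a series from `N` to `G` with factors of order prime to `p` or elementary abelian
    -- of order at most `p ^ r`, at most `n` of the second kind
    (r n : ℕ) (hser : Ser p r n ι.range)
    -- `D` is an abelian defect group of `b`, `ζ` is in a block of its centralizer which induces `b`
    (θ : N → ℂ) (hθ : θ ∈ Irr N) (D : Subgroup N) (hab : ∀ a ∈ D, ∀ b ∈ D, a * b = b * a)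
    (hD : Nat.card D = p ^ defect p (block 𝔪 θ))
    (ζ : Subgroup.centralizer (D : Set N) → ℂ) (hζ : ζ ∈ Irr (Subgroup.centralizer (D : Set N)))
    (hind : Induces 𝔪 (Subgroup.centralizer (D : Set N)) ζ θ)
    -- `χ` lies over `θ`
    (χ : G → ℂ) (hχ : χ ∈ Irr G) (hχθ : Over ι χ θ) :
    (block 𝔪 χ).Finite ∧
    -- (1) the centralizer of `u ∈ D` in the group of automorphisms of `D` which is induced by the
    -- stabilizer of `(D, block of ζ)` in `G` has order at most `e`
    ((n = 0 ∨ r ≤ 3 ∨ 12 * 25 ^ (r ^ 2) ≤ p) → ∀ u ∈ D, ∀ e : ℕ,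
      Nat.card {g : G // g ∈ inertiaIn 𝔪 ι D ζ ∧ g * ι u = ι u * g} ≤
        e * Nat.card {g : G // g ∈ inertiaIn 𝔪 ι D ζ ∧ ∀ x ∈ D, g * ι x = ι x * g} →
      12 * e ≤ p + 1 → (block 𝔪 χ).ncard ≤ p ^ defect p (block 𝔪 χ)) ∧
    -- `D` has rank at most `r`
    (Nat.card {x : D // x ^ p = 1} ≤ p ^ r →
      -- (2) large primes
      (12 * 25 ^ (r ^ 2) ≤ p → (block 𝔪 χ).ncard ≤ p ^ defect p (block 𝔪 χ)) ∧
      -- (3) all primes
      (block 𝔪 χ).ncard ≤
        ((12 * 25 ^ (r ^ 2)) ^ (r ^ 2)) ^ (n + 1) * p ^ defect p (block 𝔪 χ) ∧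
      -- (4) from a bound for the blocks with abelian defect groups of rank at most `r`
      ∀ C : ℕ, (∀ (G' : Type) [Group G'] [Finite G'] (χ' : G' → ℂ) (D' : Subgroup G')
          (ζ' : Subgroup.centralizer (D' : Set G') → ℂ), χ' ∈ Irr G' →
          (∀ a ∈ D', ∀ b ∈ D', a * b = b * a) → Nat.card D' = p ^ defect p (block 𝔪 χ') →
          ζ' ∈ Irr (Subgroup.centralizer (D' : Set G')) →
          Induces 𝔪 (Subgroup.centralizer (D' : Set G')) ζ' χ' →
          Nat.card {x : D' // x ^ p = 1} ≤ p ^ r → (block 𝔪 χ').ncard ≤ C * Nat.card D') →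
        (block 𝔪 χ).ncard ≤ C ^ (n + 1) * p ^ defect p (block 𝔪 χ)) := by
  classical
  have : Fintype (Subgroup.centralizer (D : Set N)) := Fintype.ofFinite _
  have h : Nrm ι := Nrm.of_range hι hN
  have hA := Sub_AbD p 𝔪 θ hθ D hab hD ζ hζ hind
  refine ⟨Pool.Agent.KBU.Gam_fin 𝔪 χ, ?_, ?_⟩
  · intro hn u hu e he hpe
    simp only [Iner_eq 𝔪 h D ζ] at he
    rcases hn with hn | hn
    · exact FinC_u p hp 𝔪 h𝔪 hp𝔪 θ hθ D _ ζ hA r n h hser (Or.inl hn) u hu e he
        hpe χ hχ hχθ
    · exact Pool.Agent.KBD.Cls_u p hp 𝔪 h𝔪 hp𝔪 θ hθ D _ ζ hA r n h hser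
        (hn.imp id fun h1 => by omega) u hu e he hpe χ hχ hχθ
  · intro hr
    refine ⟨fun hpr => ?_, ?_, fun C hC => ?_⟩
    · have h1 := FinC_adb p hp 𝔪 h𝔪 hp𝔪 r 1 (FinC_one p hp 𝔪 h𝔪 hp𝔪 r (by omega)) θ hθ D _ ζ hA
        hr n h hser χ hχ hχθ
      rwa [one_pow, one_mul] at h1
    · exact FinC_adb p hp 𝔪 h𝔪 hp𝔪 r _ (FinC_all p hp 𝔪 h𝔪 hp𝔪 r) θ hθ D _ ζ hA
        hr n h hser χ hχ hχθ
    · exact FinC_adb p hp 𝔪 h𝔪 hp𝔪 r C (Tra_adb p 𝔪 r C fun G' _ _ χ' D' ζ' => hC G' χ' D' ζ') θ
        hθ D _ ζ hA hr n h hser χ hχ hχθ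

end Pool.Agent.Results.MP_a15589_al.SolvableQuotients
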